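import Mathlib
import Pool.Agent.Helper17.HCDefs
import Pool.Agent.Helper17.HCMain

set_option autoImplicit false

/-!
# Covering the arcs of a random digraph by Hamilton cycles

If `n p / log n → ∞` then with high probability the random digraph `D_{n,p}` is covered by
`(1 + o(1)) n p` of its Hamilton cycles.
-/

namespace Pool.Agent.Results.MP_60c950_co.HamiltonCovers

open Pool.Agent.Helper17.HC Filter Topology Finset

lemma coveredBy_mono {n : ℕ} {D : Finset (Fin n × Fin n)} {x y : ℝ} (h : CoveredBy D x)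
    (hxy : x ≤ y) : CoveredBy D y := by
  obtain ⟨H, h1, h2, h3⟩ := h
  exact ⟨H, h1.trans hxy, h2, h3⟩

lemma prob_ge {n : ℕ} {p : ℝ} {E : Finset (Fin n × Fin n) → Prop} {δ : ℝ}
    (h : pr p (arcs n) (fun D => ¬ E D) ≤ δ) : 1 - δ ≤ prob n p E := by
  rw [prob_eq_pr]
  rw [pr_compl] at h
  linarith

/-- The uniform version: an explicit bound for the probability, for all `p` with
`n p ≥ K log n`, where the constant `K` depends only on `ε`. -/
theorem uniform : ∀ ε : ℝ, 0 < ε → ∃ (K : ℝ) (n₀ : ℕ), ∀ n : ℕ, n₀ ≤ n → ∀ p : ℝ, 0 ≤ p →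
    p ≤ 1 → K * Real.log n ≤ n * p →
    1 - 1 / (n : ℝ) ≤ prob n p (fun D => CoveredBy D ((1 + ε) * (n * p))) := by
  intro ε hε
  obtain ⟨K, n₀, h⟩ := main_fin (ε := min ε 1) (lt_min hε one_pos) (min_le_right _ _)
  refine ⟨K, n₀, fun n hn p hp0 hp1 hp => ?_⟩
  refine (prob_ge (h n hn p hp1 hp)).trans ?_
  rw [prob_eq_pr, prob_eq_pr]
  refine pr_mono hp0 hp1 fun D _ hD => coveredBy_mono hD ?_
  refine mul_le_mul_of_nonneg_right ?_ (by positivity)
  linarith [min_le_left ε 1]

/-- For every `p = p(n)` with `n p / log n → ∞` there is `ε(n) → 0` such that the probability that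
`D_{n,p}` is covered by a family of at most `(1 + ε(n)) n p` Hamilton cycles of `D_{n,p}` tends
to `1`. -/
theorem result : ∀ p : ℕ → ℝ, (∀ n, 0 ≤ p n ∧ p n ≤ 1) →
    Tendsto (fun n : ℕ => n * p n / Real.log n) atTop atTop →
    ∃ ε : ℕ → ℝ, Tendsto ε atTop (𝓝 0) ∧
      Tendsto (fun n : ℕ => prob n (p n) (fun D => CoveredBy D ((1 + ε n) * (n * p n))))
        atTop (𝓝 1) := by
  classical
  intro p hp hlim
  have hA : ∀ j : ℕ, ∃ N : ℕ, ∀ n ≥ N, 1 - 1 / (n : ℝ) ≤
      prob n (p n) (fun D => CoveredBy D ((1 + 1 / ((j : ℝ) + 1)) * (n * p n))) := by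
    intro j
    obtain ⟨K, n₀, h⟩ := uniform (1 / ((j : ℝ) + 1)) (by positivity)
    obtain ⟨N1, hN1⟩ := eventually_atTop.1 (hlim.eventually_ge_atTop K)
    refine ⟨max n₀ (max N1 2), fun n hn => ?_⟩
    have hn0 : n₀ ≤ n := (le_max_left _ _).trans hn
    have hnN : N1 ≤ n := ((le_max_left _ _).trans (le_max_right _ _)).trans hn
    have hn2 : 2 ≤ n := ((le_max_right _ _).trans (le_max_right _ _)).trans hn
    have hlog : 0 < Real.log n := Real.log_pos (by exact_mod_cast hn2)
    have h1 := hN1 n hnN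
    rw [le_div_iff₀ hlog] at h1
    exact h n hn0 (p n) (hp n).1 (hp n).2 h1
  choose N hN using hA
  set Q : ℕ → ℕ → Prop := fun n j => ∀ m ≥ n, 1 - 1 / (m : ℝ) ≤
      prob m (p m) (fun D => CoveredBy D ((1 + 1 / ((j : ℝ) + 1)) * (m * p m))) with hQ
  set J : ℕ → ℕ := fun n => Nat.findGreatest (Q n) n with hJ
  have hJge : ∀ j n : ℕ, N j ≤ n → j ≤ n → j ≤ J n := by
    intro j n h1 h2
    exact Nat.le_findGreatest h2 fun m hm => hN j m (h1.trans hm)
  have hJspec : ∀ n : ℕ, N 0 ≤ n → Q n (J n) := by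
    intro n hn
    exact Nat.findGreatest_spec (P := Q n) (Nat.zero_le n) fun m hm => hN 0 m (hn.trans hm)
  have hJtop : Tendsto J atTop atTop := by
    rw [tendsto_atTop]
    intro j
    filter_upwards [eventually_ge_atTop (max (N j) j)] with n hn
    exact hJge j n ((le_max_left _ _).trans hn) ((le_max_right _ _).trans hn)
  refine ⟨fun n => 1 / ((J n : ℝ) + 1), ?_, ?_⟩
  · exact (tendsto_one_div_add_atTop_nhds_zero_nat (𝕜 := ℝ)).comp hJtop
  · have hlow : Tendsto (fun n : ℕ => 1 - 1 / (n : ℝ)) atTop (𝓝 1) := by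
      have := (tendsto_const_nhds (x := (1 : ℝ)) (f := (atTop : Filter ℕ))).sub
        (tendsto_one_div_atTop_nhds_zero_nat (𝕜 := ℝ))
      simpa using this
    refine tendsto_of_tendsto_of_tendsto_of_le_of_le' hlow tendsto_const_nhds ?_ ?_
    · filter_upwards [eventually_ge_atTop (N 0)] with n hn
      exact hJspec n hn n le_rfl
    · filter_upwards with n
      rw [prob_eq_pr]
      exact pr_le_one (hp n).1 (hp n).2 _

end Pool.Agent.Results.MP_60c950_co.HamiltonCovers
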